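import Mathlib
import Pool.Agent.Lib.helper20.FSigma

namespace Pool.Agent.Results.MP_597c46_an.NotMaxMonotoneDomain

/-- Monotone set-valued maps. -/
def IsMonotoneOp {n : ℕ} (A : EuclideanSpace ℝ (Fin n) → Set (EuclideanSpace ℝ (Fin n))) : Prop :=
  ∀ x y u v, u ∈ A x → v ∈ A y → 0 ≤ inner ℝ (u - v) (x - y)

/-- Maximally monotone set-valued maps. -/
def IsMaxMonotone {n : ℕ} (A : EuclideanSpace ℝ (Fin n) → Set (EuclideanSpace ℝ (Fin n))) : Prop :=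
  IsMonotoneOp A ∧ ∀ B, IsMonotoneOp B → (∀ x, A x ⊆ B x) → ∀ x, B x ⊆ A x

open Pool.Agent.Lib.helper20.FSigma in
theorem result (n : ℕ) (hn : 2 ≤ n) :
    ∃ C : Set (EuclideanSpace ℝ (Fin n)), C.Nonempty ∧ Convex ℝ C ∧
      ∀ A : EuclideanSpace ℝ (Fin n) → Set (EuclideanSpace ℝ (Fin n)), IsMaxMonotone A →
        {x | (A x).Nonempty} ≠ C ∧ (⋃ x, A x) ≠ C := by
  obtain ⟨m, rfl⟩ := Nat.exists_eq_add_of_le' hn
  refine ⟨CC m, CC_nonempty m, CC_convex m, fun A hA => ?_⟩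
  have hG : IsClosed {p : EuclideanSpace ℝ (Fin (m + 2)) × EuclideanSpace ℝ (Fin (m + 2)) |
      p.2 ∈ A p.1} := by
    refine closed_of_maximal _ (fun p hp q hq => hA.1 _ _ _ _ hp hq) fun H hH hsub p hp => ?_
    exact hA.2 (fun x => {u | (x, u) ∈ H}) (fun x y u v hu hv => hH (x, u) hu (y, v) hv)
      (fun x u hu => hsub (show (x, u) ∈ _ from hu)) p.1 hp
  refine ⟨fst_ne m _ hG, ?_⟩
  have := snd_ne m _ hG
  rwa [show (⋃ x, A x) = {u | ∃ x, u ∈ A x} from by ext u; simp]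

end Pool.Agent.Results.MP_597c46_an.NotMaxMonotoneDomain
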