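import Mathlib
import Pool.Agent.Lib.helper20.FSigma

namespace Pool.Agent.Results.MP_597c46_an.NotSubdiffDomain

/-- Proper lower semicontinuous convex functions with values in `(-∞, +∞]`. -/
def ProperLscConvex {n : ℕ} (f : EuclideanSpace ℝ (Fin n) → EReal) : Prop :=
  (∀ x, f x ≠ ⊥) ∧ (∃ x, f x ≠ ⊤) ∧ LowerSemicontinuous f ∧
    Convex ℝ {p : EuclideanSpace ℝ (Fin n) × ℝ | f p.1 ≤ (p.2 : EReal)}

/-- The subdifferential. -/
def subdiff {n : ℕ} (f : EuclideanSpace ℝ (Fin n) → EReal) (x : EuclideanSpace ℝ (Fin n)) :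
    Set (EuclideanSpace ℝ (Fin n)) :=
  {u | ∀ y, f x + ((inner ℝ u (y - x) : ℝ) : EReal) ≤ f y}

open Pool.Agent.Lib.helper20.FSigma in
theorem result (n : ℕ) (hn : 2 ≤ n) :
    ∃ C : Set (EuclideanSpace ℝ (Fin n)), C.Nonempty ∧ Convex ℝ C ∧
      ∀ f : EuclideanSpace ℝ (Fin n) → EReal, ProperLscConvex f →
        {x | (subdiff f x).Nonempty} ≠ C ∧ (⋃ x, subdiff f x) ≠ C := by
  obtain ⟨m, rfl⟩ := Nat.exists_eq_add_of_le' hn
  refine ⟨CC m, CC_nonempty m, CC_convex m, fun f hf => ?_⟩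
  have hG := closed_subdiff f hf.2.2.1 hf.1
  refine ⟨fst_ne m _ hG, ?_⟩
  have := snd_ne m _ hG
  rwa [show (⋃ x, subdiff f x) = {u | ∃ x, u ∈ subdiff f x} from by ext u; simp]

end Pool.Agent.Results.MP_597c46_an.NotSubdiffDomain
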